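import Pool.Agent.Q29.TC.Main

/-!
# The twisted conjugacy ratio depends on the generating set

The definitions (balls, twisted conjugacy classes, the numbers `tdc_X(φ, G)` and `tcr_X(φ, G)`) are
in `Pool.Agent.Q29.TC.Defs`.  The example is the group `F₂ × ℤ/4` with the endomorphism
`(a, k) ↦ (a², 0)`, `(b, k) ↦ (b², 0)` and the generating sets `{a, b, 1}` and
`{a, b} ∪ ℤ/4`.
-/

namespace Pool.Agent.Results.MP_91bf1e_al.RatioDepends

open Q29.TC

/-- There are a group `G`, an endomorphism `φ` of `G` and two finite generating sets `X`, `Y` of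
`G` such that `tcr_X(φ, G) ≠ tcr_Y(φ, G)`. -/
theorem result : ∃ (G : Type) (_ : Group G) (φ : G →* G) (X Y : Set G),
    X.Finite ∧ Y.Finite ∧ Subgroup.closure X = ⊤ ∧ Subgroup.closure Y = ⊤ ∧
      tcr φ X ≠ tcr φ Y :=
  ⟨GG, inferInstance, phi, X, Y, X_finite, Y_finite, X_closure, Y_closure, main.ne'⟩

end Pool.Agent.Results.MP_91bf1e_al.RatioDepends
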